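import Pool.Agent.H528R2.QDefs

/-!
# Matroids representable over `ℚ`: definitions

* `QRep (n, L)` : the sets listed in `L` are exactly the bases of a family of `n` rational vectors;
* `GSat` : systems of gates `a + b = c`, `a * b = c` with *injective*, nonzero solutions over `ℚ`;
* `gates` : the system of gates attached to a system of elementary constraints;
* `mat` : the list of bases attached to a system of gates (a matroid of rank three).
-/

namespace Pool.Agent.H198R2.Mat

open Pool.Agent.NPC
open Pool.Agent.H528R2 (HoldsQ QSat)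

/-- `(n, L)`: the sets listed in `L` are exactly the bases of a family of `n` rational vectors,
i.e. `L` is the list of bases of a matroid on `{0, …, n-1}` which is representable over `ℚ`. -/
def QRep (p : ℕ × List (List ℕ)) : Prop :=
  ∃ m : ℕ, ∃ v : Fin p.1 → (Fin m → ℚ),
    ∀ B : Finset (Fin p.1),
      ((∃ l ∈ p.2, ∀ i : Fin p.1, i ∈ B ↔ (i : ℕ) ∈ l) ↔
        (LinearIndependent ℚ (fun i : B => v i) ∧
          Submodule.span ℚ (v '' (B : Set (Fin p.1))) = Submodule.span ℚ (Set.range v)))

/-! ### gates -/

/-- a gate `(m, a, b, c)`: `x a + x b = x c` if `m = false`, `x a * x b = x c` if `m = true` -/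
abbrev Gate : Type := Bool × ℕ × ℕ × ℕ

/-- instances: the number of values (in unary) and the list of gates -/
abbrev GI : Type := List Unit × List Gate

/-- number of values -/
def GI.N (I : GI) : ℕ := I.1.length

/-- validity of a gate -/
def GHolds (x : ℕ → ℚ) (g : Gate) : Prop :=
  if g.1 then x g.2.1 * x g.2.2.1 = x g.2.2.2 else x g.2.1 + x g.2.2.1 = x g.2.2.2

/-- `x` is a generic solution of the system of gates: the value number `0` is `1`, the values are
distinct and nonzero, and all gates are valid -/
def GSol (I : GI) (x : ℕ → ℚ) : Prop :=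
  x 0 = 1 ∧ (∀ i < I.N, x i ≠ 0) ∧ (∀ i < I.N, ∀ j < I.N, x i = x j → i = j) ∧
    ∀ g ∈ I.2, GHolds x g

/-- there is a generic solution -/
def GSat (I : GI) : Prop := ∃ x : ℕ → ℚ, GSol I x

/-- well-formed systems of gates -/
def WF (I : GI) : Prop :=
  0 < I.N ∧ ∀ g ∈ I.2, g.2.1 < I.N ∧ g.2.2.1 < I.N ∧ g.2.2.2 < I.N ∧
    (g.1 = true → g.2.1 ≠ 0 ∧ g.2.2.1 ≠ 0 ∧ g.2.2.2 ≠ 0)

/-! ### from elementary constraints to gates -/

/-- the constraints have at most `3 K` variables `0, …, 3 K - 1`, where `K` is their number -/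
def Dense (S : List ER.Con) : Prop := ∀ c ∈ S, ∀ i ∈ c.vars, i < 3 * S.length

/-- the numerical form of a constraint: (type, three variables) -/
def cv : ER.Con → ℕ × ℕ × ℕ × ℕ
  | .one i => (0, i, i, i)
  | .add i j k => (1, i, j, k)
  | .mul i j k => (2, i, j, k)

/-- index of the value `y i` of the variable `i` (`i = y i + z i`) -/
def yy (i : ℕ) : ℕ := 1 + 2 * i
/-- index of the value `z i` of the variable `i` -/
def zz (i : ℕ) : ℕ := 2 + 2 * i

/-- the gates of a constraint `c`; its `22` private values have the indices `B, …, B + 21`: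
`a, v₁-a, a-z₁, b, 2b, v₂-2b, 2b-z₂, c, v₃-c, c-z₃,` then
`m₁ = (v₁-a)(v₂-2b), m₂ = (v₁-a)b, m₃ = a(v₂-2b), m₄ = ab, s₁ = m₁+m₄, s₂ = s₁+m₄, s₃ = m₂+m₃,
s₄ = s₃+m₂, c-s₄,` and `v₁+v₂-a-2b, a+2b, c-a-2b` -/
def cgates (B : ℕ) (c : ER.Con) : List Gate :=
  [(false, B + 2, B + 1, yy (cv c).2.1), (false, B + 2, zz (cv c).2.1, B),
   (false, B + 3, B + 3, B + 4),
   (false, B + 6, B + 5, yy (cv c).2.2.1), (false, B + 6, zz (cv c).2.2.1, B + 4),
   (false, B + 9, B + 8, yy (cv c).2.2.2), (false, B + 9, zz (cv c).2.2.2, B + 7)] ++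
  (if (cv c).1 = 0 then [(false, B + 1, B, 0)]
   else if (cv c).1 = 1 then
    [(false, B + 1, B + 5, B + 19), (false, B, B + 4, B + 20),
     (false, B + 21, B + 8, B + 19), (false, B + 21, B + 20, B + 7)]
   else
    [(true, B + 1, B + 5, B + 10), (true, B + 1, B + 3, B + 11), (true, B, B + 5, B + 12),
     (true, B, B + 3, B + 13), (false, B + 10, B + 13, B + 14), (false, B + 14, B + 13, B + 15),
     (false, B + 11, B + 12, B + 16), (false, B + 16, B + 11, B + 17),
     (false, B + 18, B + 8, B + 15), (false, B + 18, B + 17, B + 7)])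

/-- the system of gates attached to a (dense) system of elementary constraints with `K`
constraints: `1 + 6 K + 22 K` values -/
def gates (S : List ER.Con) : GI :=
  (List.replicate (1 + 28 * S.length) (), S.zipIdx.flatMap (fun p =>
    cgates (1 + 6 * S.length + 22 * p.2) p.1))

/-! ### from gates to lists of bases -/

/-- The element (on the line at infinity) of the line through the points number `q < q'` of a gate.
Elements of the line at infinity: `0` is the slope `0`, `1` is the slope `∞`, `2 + j` is the slope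
`x j`. -/
def slopeEl (g : Gate) (q q' : ℕ) : ℕ :=
  if q = 0 ∧ q' = 1 then 2 + g.2.1
  else if q = 2 ∧ q' = 3 then 2 + g.2.2.1
  else if q = 0 ∧ q' = 2 then 2 + g.2.2.2
  else if q = 1 ∧ q' = 3 then (if g.1 then 2 else 0)
  else if q = 0 ∧ q' = 3 then (if g.1 then 0 else 1)
  else 1

/-- number of elements of the matroid: two slopes, the values, one generic point, and four points
for each gate -/
def GI.n (I : GI) : ℕ := 3 + I.N + 4 * I.2.length

/-- the triple `i < j < k` is not a basis -/
def NonB (I : GI) (i j k : ℕ) : Prop :=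
  k < 2 + I.N ∨ (i < 2 + I.N ∧ 3 + I.N ≤ j ∧ (j - (3 + I.N)) / 4 = (k - (3 + I.N)) / 4 ∧
    slopeEl (I.2.getD ((j - (3 + I.N)) / 4) (false, 0, 0, 0)) ((j - (3 + I.N)) % 4)
      ((k - (3 + I.N)) % 4) = i)

instance (I : GI) (i j k : ℕ) : Decidable (NonB I i j k) := by unfold NonB; infer_instance

/-- the list of bases attached to a system of gates -/
def mat (I : GI) : ℕ × List (List ℕ) :=
  (I.n, (List.range I.n).flatMap fun i => (List.range I.n).flatMap fun j =>
    ((List.range I.n).filter fun k => decide (i < j ∧ j < k ∧ ¬ NonB I i j k)).map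
      fun k => [i, j, k])

/-- renaming of the variables of a constraint -/
def ren (f : ℕ → ℕ) : ER.Con → ER.Con
  | .one i => .one (f i)
  | .add i j k => .add (f i) (f j) (f k)
  | .mul i j k => .mul (f i) (f j) (f k)

/-- the list of all variables (with repetitions, three for each constraint) -/
def occ (S : List ER.Con) : List ℕ :=
  S.flatMap fun c => [(cv c).2.1, (cv c).2.2.1, (cv c).2.2.2]

/-- renumbering of the variables by their first occurrence -/
def dens (S : List ER.Con) : List ER.Con := S.map (ren (fun i => (occ S).idxOf i))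

end Pool.Agent.H198R2.Mat
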