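import Pool.Agent.H198R2.Mat.Defs

/-! STATEMENTS (stubs). Never import this file in a hand-in. -/

namespace Pool.Agent.H198R2.Mat

open Pool.Agent.NPC
open Pool.Agent.H528R2 (HoldsQ QSat HardX NEXPHard)

/-! ## D `Dens.lean` -/
theorem dens_dense (S : List ER.Con) : Dense (dens S) := sorry
theorem dens_iff (S : List ER.Con) : QSat (dens S) ↔ QSat S := sorry

/-! ## G1 `GSound.lean` -/
theorem gates_wf {S : List ER.Con} (h : Dense S) : WF (gates S) := sorry
theorem gates_sound {S : List ER.Con} (h : Dense S) (hs : GSat (gates S)) : QSat S := sorry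

/-! ## G2 `GComp.lean` -/
theorem gates_complete {S : List ER.Con} (h : Dense S) (hs : QSat S) : GSat (gates S) := sorry

/-! ## M1 `MSound.lean` -/
theorem mat_sound {I : GI} (h : WF I) (hr : QRep (mat I)) : GSat I := sorry

/-! ## M2 `MComp.lean` -/
theorem mat_complete {I : GI} (h : WF I) (hs : GSat I) : QRep (mat I) := sorry

/-! ## P `MPoly.lean` -/
theorem poly_dens : Poly dens := sorry
theorem poly_gates : Poly gates := sorry
theorem poly_mat : Poly mat := sorry

/-! ## final -/
theorem qrep_iff (S : List ER.Con) : QSat S ↔ QRep (mat (gates (dens S))) := by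
  rw [← dens_iff S]
  exact ⟨fun h => mat_complete (gates_wf (dens_dense S)) (gates_complete (dens_dense S) h),
    fun h => gates_sound (dens_dense S) (mat_sound (gates_wf (dens_dense S)) h)⟩

theorem poly_all : Poly (fun S => mat (gates (dens S))) :=
  poly_mat.comp (poly_gates.comp poly_dens)

end Pool.Agent.H198R2.Mat
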